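import Pool.Agent.H28.MCL.Targets

/-!
# The trivial bound from below
-/

set_option autoImplicit false

namespace Pool.Agent.H81.MCL

open Pool.Agent.H28.MCL Finset Filter

theorem rhs_gc {m q W : ℕ} (hqW : q ∣ W) (n₀ : ℕ) (τ : Fin m → ℕ) (A : Fin m → Finset ℕ)
    (g : Fin m → ℕ → ℝ) (hAq : ∀ l, ∀ a ∈ A l, a ≡ n₀ + τ l [MOD q])
    (hg : ∀ l y, |g l y| = 1) (N H T : ℕ) :
    rhs q n₀ τ (gc W A g) N H T = ∑ n ∈ iv N H q n₀, ∏ l,
      (((Finset.Icc 1 T).filter (fun t => (n + t) % W ∈ A l)).card : ℝ) := by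
  unfold rhs
  rw [Finset.sum_comm]
  refine Finset.sum_congr rfl fun n hn => ?_
  have hn0 : n ≡ n₀ [MOD q] := (Finset.mem_filter.1 hn).2
  have h1 : ∀ t : Fin m → ℕ, ∏ l, |gc W A g l (n + t l)| =
      ∏ l, (if (n + t l) % W ∈ A l then (1 : ℝ) else 0) := by
    intro t
    refine Finset.prod_congr rfl fun l _ => ?_
    unfold gc
    by_cases h : (n + t l) % W ∈ A l
    · rw [if_pos h, if_pos h, hg]
    · rw [if_neg h, if_neg h, abs_zero]
  rw [Finset.sum_congr rfl fun t _ => h1 t]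
  have h2 : ∑ t ∈ bx m T q τ, ∏ l, (if (n + t l) % W ∈ A l then (1 : ℝ) else 0) =
      ∑ t ∈ Fintype.piFinset (fun _ : Fin m => Finset.Icc 1 T),
        ∏ l, (if (n + t l) % W ∈ A l then (1 : ℝ) else 0) := by
    unfold bx
    refine Finset.sum_filter_of_ne fun t _ ht l => ?_
    have h3 : (n + t l) % W ∈ A l := by
      by_contra h
      exact ht (Finset.prod_eq_zero (Finset.mem_univ l) (if_neg h))
    have h4 : n + t l ≡ n₀ + τ l [MOD q] :=
      ((Nat.mod_modEq (n + t l) W).symm.of_dvd hqW).trans (hAq l _ h3)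
    exact Nat.ModEq.add_left_cancel hn0 h4
  rw [h2, ← Finset.prod_univ_sum (fun _ : Fin m => Finset.Icc 1 T)
    (fun l t => if (n + t) % W ∈ A l then (1 : ℝ) else 0)]
  exact Finset.prod_congr rfl fun l _ => Finset.sum_boole _ _

theorem low (hc : T_CNT) : T_LOW := by
  intro m q W ζ hq hW hqW hζ
  obtain ⟨K0, hK0⟩ := exists_nat_gt (((q : ℝ) + m * W) / ζ)
  refine ⟨K0 + q + W + 1, ?_⟩
  intro n₀ τ A g hA hAq hg N H T hKH hHN hKT
  rw [rhs_gc hqW n₀ τ A g hAq hg N H T]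
  have hqR : (0 : ℝ) < q := by exact_mod_cast hq
  have hWR : (0 : ℝ) < W := by exact_mod_cast hW
  have hKH' : ((K0 : ℝ) + q + W + 1) ≤ H := by exact_mod_cast hKH
  have hKT' : ((K0 : ℝ) + q + W + 1) ≤ T := by exact_mod_cast hKT
  have hK0' : (0 : ℝ) ≤ K0 := Nat.cast_nonneg _
  have hH : (0 : ℝ) < H := by linarith
  have hT : (0 : ℝ) < T := by linarith
  have hTW : (0 : ℝ) ≤ (T : ℝ) / W - 1 := by
    rw [sub_nonneg, le_div_iff₀ hWR]
    linarith
  have hHq : (0 : ℝ) ≤ (H : ℝ) / q - 1 := by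
    rw [sub_nonneg, le_div_iff₀ hqR]
    linarith
  -- the lower bound
  have h1 : ((H : ℝ) / q - 1) * ∏ l, (((A l).card : ℝ) * ((T : ℝ) / W - 1)) ≤
      ∑ n ∈ iv N H q n₀, ∏ l,
        (((Finset.Icc 1 T).filter (fun t => (n + t) % W ∈ A l)).card : ℝ) := by
    have hP : 0 ≤ ∏ l, (((A l).card : ℝ) * ((T : ℝ) / W - 1)) :=
      Finset.prod_nonneg fun l _ => mul_nonneg (Nat.cast_nonneg _) hTW
    calc ((H : ℝ) / q - 1) * ∏ l, (((A l).card : ℝ) * ((T : ℝ) / W - 1))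
        ≤ ((iv N H q n₀).card : ℝ) * ∏ l, (((A l).card : ℝ) * ((T : ℝ) / W - 1)) :=
          mul_le_mul_of_nonneg_right ((hc q 0 H ∅ hq (Finset.empty_subset _)).2.2 N n₀ hHN).2 hP
      _ = ∑ n ∈ iv N H q n₀, ∏ l, (((A l).card : ℝ) * ((T : ℝ) / W - 1)) := by
          rw [Finset.sum_const, nsmul_eq_mul]
      _ ≤ _ := Finset.sum_le_sum fun n _ => Finset.prod_le_prod
          (fun l _ => mul_nonneg (Nat.cast_nonneg _) hTW)
          (fun l _ => (hc W n T (A l) hW (hA l)).2.1)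
  refine le_trans ?_ h1
  -- the comparison with `mm`
  have hmm : ((H : ℝ) / q - 1) * ∏ l, (((A l).card : ℝ) * ((T : ℝ) / W - 1)) =
      ((1 - (q : ℝ) / H) * (1 - (W : ℝ) / T) ^ m) * mm q W A H T := by
    unfold mm
    have h2 : ∀ l : Fin m, ((A l).card : ℝ) * ((T : ℝ) / W - 1) =
        (1 - (W : ℝ) / T) * (((A l).card : ℝ) * ((T : ℝ) / W)) := by
      intro l
      field_simp
    have h3 : (H : ℝ) / q - 1 = (1 - (q : ℝ) / H) * ((H : ℝ) / q) := by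
      field_simp
    rw [Finset.prod_congr rfl fun l _ => h2 l, Finset.prod_mul_distrib, Finset.prod_const,
      Finset.card_univ, Fintype.card_fin, h3]
    ring
  rw [hmm]
  have hmm0 : 0 ≤ mm q W A H T := by
    unfold mm
    exact mul_nonneg (by positivity) (Finset.prod_nonneg fun l _ => by positivity)
  refine mul_le_mul_of_nonneg_right ?_ hmm0
  have hWT : (W : ℝ) / T ≤ 1 := by
    rw [div_le_one hT]
    linarith
  have hqH : (q : ℝ) / H ≤ 1 := by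
    rw [div_le_one hH]
    linarith
  have hB : 1 - (m : ℝ) * ((W : ℝ) / T) ≤ (1 - (W : ℝ) / T) ^ m := by
    have h4 := one_add_mul_le_pow (a := -((W : ℝ) / T)) (by linarith) m
    calc 1 - (m : ℝ) * ((W : ℝ) / T) = 1 + (m : ℝ) * (-((W : ℝ) / T)) := by ring
      _ ≤ (1 + -((W : ℝ) / T)) ^ m := h4
      _ = (1 - (W : ℝ) / T) ^ m := by rw [← sub_eq_add_neg]
  have hz : (q : ℝ) / H + (m : ℝ) * ((W : ℝ) / T) ≤ ζ := by
    have hK1 : (0 : ℝ) < (K0 : ℝ) + q + W + 1 := by linarith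
    have h5 : (q : ℝ) / H ≤ q / ((K0 : ℝ) + q + W + 1) :=
      div_le_div_of_nonneg_left hqR.le hK1 hKH'
    have h6 : (W : ℝ) / T ≤ W / ((K0 : ℝ) + q + W + 1) :=
      div_le_div_of_nonneg_left hWR.le hK1 hKT'
    have hm0 : (0 : ℝ) ≤ m := Nat.cast_nonneg _
    have h7 : (q : ℝ) + m * W ≤ ζ * ((K0 : ℝ) + q + W + 1) := by
      rw [div_lt_iff₀ hζ] at hK0
      nlinarith
    calc (q : ℝ) / H + (m : ℝ) * ((W : ℝ) / T)
        ≤ q / ((K0 : ℝ) + q + W + 1) + m * (W / ((K0 : ℝ) + q + W + 1)) :=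
          add_le_add h5 (mul_le_mul_of_nonneg_left h6 hm0)
      _ = ((q : ℝ) + m * W) / ((K0 : ℝ) + q + W + 1) := by ring
      _ ≤ ζ := by
          rw [div_le_iff₀ hK1]
          exact h7
  have hab : 0 ≤ ((q : ℝ) / H) * ((m : ℝ) * ((W : ℝ) / T)) := by positivity
  calc 1 - ζ ≤ 1 - (q : ℝ) / H - (m : ℝ) * ((W : ℝ) / T) := by linarith
    _ ≤ (1 - (q : ℝ) / H) * (1 - (m : ℝ) * ((W : ℝ) / T)) := by nlinarith
    _ ≤ (1 - (q : ℝ) / H) * (1 - (W : ℝ) / T) ^ m :=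
        mul_le_mul_of_nonneg_left hB (by linarith)

end Pool.Agent.H81.MCL
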